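import Mathlib
import Pool.Agent.X333.DC.Ena

/-!
MP_8d161d_ag, Q1: the Green-Griffiths-Lang conjecture for the varieties dominated by varieties given
by nested sums of high powers.

`V` is a closed subvariety, with function field `K` and generic point `y`, of a complex projective
variety `{F = 0}` given by nested sums of high powers of linear forms, or of monomials. We consider
all projective varieties `X` (with function field `L` and generic point `x`) with generically finite
dominant rational maps `X' ⇢ V` of arbitrary degree and `X' ⇢ X` of degree at most `r`; for `X' = V`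
these are all the varieties dominated by `V` with degree at most `r`. No assumption is made on branch
loci, on the singularities, or on the projective model `X`. An entire curve in `X` lifts to `V` only
as an algebroid curve.

`SubVar`, `IsComponent`, `GeneralType`, `Ruled` (`Pool/Agent/W602/GT`), `RatCurve`,
`StronglyGeneral` (`Pool/Agent/TH466/QG`), `PseudoBrody` (`Pool/Agent/Y221/BD/Defs.lean`),
`IsUniruled` (`Pool/Agent/W619/PQ/Defs.lean`), `HighTowers` (`Pool/Agent/TH710/ND/Proj.lean`).
-/

set_option autoImplicit false

namespace Pool.Agent.Results.MP_8d161d_ag.DominatedNestedEntire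

open Pool.Agent.W602.GT Pool.Agent.TH710.ND
open Pool.Agent.W619.PQ (IsUniruled)
open Pool.Agent.TH466.QG (StronglyGeneral RatCurve)
open Pool.Agent.Y221.BD (PseudoBrody)

/-- Let `V` be a closed subvariety of `{F = 0}` of dimension `w ≥ 1`, the forms `F_e` nested sums
with at most `h + 1` levels, at most `s` summands at each, and exponents at least
`4 (n + 1) (h + 1) 10 ^ (2 s) (r + 1) ^ 7`.

(1) Suppose that there is no rational curve of `{F = 0}` through the generic point of `V`, over the
function field of `V`, or that `V` is an irreducible component of `{F = 0}` and not birational to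
`B × ℙ¹` for any `B`. Then every projective variety `X` with generically finite dominant rational
maps `X' ⇢ V`, of any degree, and `X' ⇢ X`, of degree at most `r`, is of general type, and all
nonconstant entire curves in `X` are contained in a proper closed subset of `X`.

(2) If `V` is an irreducible component of `{F = 0}` then the following are equivalent for every
projective variety `X` with a generically finite dominant rational map `V ⇢ X` of degree at most
`r`: `X` is of general type; all nonconstant entire curves in `X` are contained in a proper closed
subset of `X`; all closed subvarieties of positive dimension of `X` which are not contained in a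
certain proper closed subset are of general type; `X` is not uniruled; `V` is not birational to
`B × ℙ¹`. -/
theorem result {n : ℕ} {ι : Type} [Finite ι] {F : ι → MvPolynomial (Fin (n + 1)) ℂ}
    {s N h r w : ℕ} (hF : HighTowers s N h F) (hw : 1 ≤ w)
    (hN : (n + 1) * ((h + 1) * (4 * 10 ^ (2 * s) * (r + 1) ^ 7)) ≤ N)
    {K : Type} [Field K] [Algebra ℂ K] {y : Fin (n + 1) → K} (hy : SubVar F K w y) :
    ((¬ RatCurve F y ∨ IsComponent F y ∧ ¬ Ruled ℂ K) →
      ∀ (K' L : Type) [Field K'] [Field L] [Algebra ℂ K'] [Algebra ℂ L]
        [Algebra K K'] [Algebra L K'] [IsScalarTower ℂ K K'] [IsScalarTower ℂ L K']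
        [FiniteDimensional K K'] [FiniteDimensional L K'], Module.finrank L K' ≤ r →
        ∀ (M : ℕ) (x : Fin (M + 1) → L), x ≠ 0 → coords ℂ x = ⊤ →
          GeneralType ℂ L w ∧ PseudoBrody x) ∧
    (IsComponent F y → ∀ (L : Type) [Field L] [Algebra ℂ L] [Algebra L K] [IsScalarTower ℂ L K]
        [FiniteDimensional L K], Module.finrank L K ≤ r →
        ∀ (M : ℕ) (x : Fin (M + 1) → L), x ≠ 0 → coords ℂ x = ⊤ →
          [GeneralType ℂ L w, PseudoBrody x, StronglyGeneral ℂ x, ¬ IsUniruled ℂ L w,
            ¬ Ruled ℂ K].TFAE) := by
  refine ⟨?_, ?_⟩
  · intro h K' L _ _ _ _ _ _ _ _ _ _ hr M x hx hgen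
    exact Pool.Agent.X333.DC.ggl_corr (K' := K') hF hw hN hy h hr hx hgen
  · intro hcomp L _ _ _ _ _ hr M x hx hgen
    exact Pool.Agent.X333.DC.ggl_tfae hF hw hN hy hcomp hr hx hgen

end Pool.Agent.Results.MP_8d161d_ag.DominatedNestedEntire
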