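import Pool.Agent.X316.ZE.Main
import Pool.Agent.X316.ZE.Pub

/-!
# Zariski-dense entire curves built from elliptic functions and the zeta function

A family `u` of meromorphic functions on the plane is called jointly universal if the translates of
every finite subfamily approximate all tuples of zero-free entire functions uniformly on some disc.
By Voronin's theorem the Riemann zeta function alone is such a family. For a lattice let `B` be the
ring of the polynomials in the elliptic functions of the lattice, the functions `u j` and all their
derivatives. A curve is built from elliptic functions and `u` if for some lattice it is algebraic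
over `B`, or has homogeneous coordinates in the smallest set of meromorphic functions which contains
the quotients of elements of `B` and is closed under sums, products and meromorphic solutions of
linear systems `y' = A y` with coefficients in the set.

We prove that if a projective variety `X` contains a Zariski-dense entire curve which is built from
elliptic functions and a jointly universal family, then all images of `X` of dimension at least two
are covered by rational curves; so `X` and these images have no pluricanonical forms and are not of
general type. In a projective algebraic set the curves of this kind are contained in every algebraic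
set which contains all rational curves and all images of complex tori of dimension one. This is the
conjecture of Green, Griffiths and Lang for these curves.
-/

set_option autoImplicit false

namespace Pool.Agent.Results.MP_8d161d_ag.EllipticUniversalCurves

open Filter MvPolynomial
open scoped LinearAlgebra.Projectivization
open Pool.Agent.TH143.EL (HolMap InV Ell trOne_ell)
open Pool.Agent.TH143.HE (RatCurvesIn)
open Pool.Agent.TH143.GT (Covered FunField Pluricanonical)
open Pool.Agent.W602.GT (IsForm GeneralType)
open Pool.Agent.Y377.IL (IteratedOver AlgebraicOver db_of_trOne)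
open Pool.Agent.X316.ZG (JointlyUniversal)
open Pool.Agent.X316.ZE (dringB)

/-- The curve `f` is built from the elliptic functions with the periods `ω₁` and `ω₂` and the
functions `u j`: with `B` the ring of the polynomials in these elliptic functions, the functions
`u j` and all their derivatives, the curve has homogeneous coordinates in the smallest set of
meromorphic functions which contains the quotients of elements of `B` and is closed under sums,
products and meromorphic solutions of linear systems over the set, or it is algebraic over `B`. -/
def BuiltFrom {N : ℕ} {ι : Type} (ω₁ ω₂ : ℂ) (u : ι → ℂ → ℂ) (f : ℂ → ℙ ℂ (Fin (N + 1) → ℂ)) :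
    Prop :=
  IteratedOver (dringB (Ell ω₁ ω₂) u) f ∨ AlgebraicOver (dringB (Ell ω₁ ω₂) u) f

/-- all forms that vanish on the curve `f` belong to the ideal `p` -/
def ZariskiDense {N : ℕ} (p : Ideal (MvPolynomial (Fin (N + 1)) ℂ))
    (f : ℂ → ℙ ℂ (Fin (N + 1) → ℂ)) : Prop :=
  ∀ G : MvPolynomial (Fin (N + 1)) ℂ, IsForm G → (∀ z, eval (f z).rep G = 0) → G ∈ p

/-- The varieties with the function field `E` are covered by rational curves, and all their
pluricanonical forms vanish. -/
def Uniruled (E : Type) [Field E] [Algebra ℂ E] : Prop :=
  Covered E ∧ ∀ v : ℕ, 0 < v → Algebra.trdeg ℂ E = v → ∀ n : ℕ, 0 < n →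
    ∀ ω : (Fin v → Derivation ℂ E E) → E, Pluricanonical v n ω → ω = 0

/-- The curve `f` factors through a complex torus of dimension one. -/
def DoublyPeriodic {N : ℕ} (f : ℂ → ℙ ℂ (Fin (N + 1) → ℂ)) : Prop :=
  ∃ ω₁ ω₂ : ℂ, LinearIndependent ℝ ![ω₁, ω₂] ∧ (∀ z, f (z + ω₁) = f z) ∧ ∀ z, f (z + ω₂) = f z

/-- **The Green-Griffiths-Lang conjecture for the curves built from elliptic functions and universal
functions.** Let `u` be a jointly universal family, let `ω₁` and `ω₂` generate a lattice, and let `f`
be an entire curve which is built from the elliptic functions of the lattice and the functions `u j`.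

(1) If `f` is Zariski dense in the projective variety `X` with the ideal `p`, the function field `K`
and the generic point `y`, then all images of `X` of dimension at least two are covered by rational
curves, have no pluricanonical forms, and are not of general type. (The images of `X` correspond to
the fields `E` between `ℂ` and `K`.)

(2) Let `X = V(I)` be any projective algebraic set and let `V(I')` be an algebraic set which contains
all rational curves in `X`. If `f` is a nonconstant curve in `X`, then `f` lies in `V(I')` or it
factors through a complex torus of dimension one.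

(3) The Riemann zeta function is universal. So (1) and (2) hold for the curves built from elliptic
functions and the Riemann zeta function. -/
theorem result :
    (∀ (ι : Type) (u : ι → ℂ → ℂ), JointlyUniversal u → ∀ ω₁ ω₂ : ℂ,
      LinearIndependent ℝ ![ω₁, ω₂] →
      (∀ (N : ℕ) (p : Ideal (MvPolynomial (Fin (N + 1)) ℂ)) (K : Type) [Field K] [Algebra ℂ K]
        (w : ℕ) (y : Fin (N + 1) → K), FunField p 1 K w y →
        ∀ f : ℂ → ℙ ℂ (Fin (N + 1) → ℂ), HolMap f → (∀ z, InV p (f z)) → ZariskiDense p f →
          BuiltFrom ω₁ ω₂ u f → ∀ (E : IntermediateField ℂ K) (v : ℕ),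
            Algebra.trdeg ℂ E = v → 1 < v → Uniruled E ∧ ¬ GeneralType ℂ E v) ∧
      ∀ (N : ℕ) (I I' : Ideal (MvPolynomial (Fin (N + 1)) ℂ)), RatCurvesIn (RingHom.id ℂ) I I' →
        ∀ f : ℂ → ℙ ℂ (Fin (N + 1) → ℂ), HolMap f → (∀ z, InV I (f z)) → BuiltFrom ω₁ ω₂ u f →
          (∃ z w, f z ≠ f w) → (∀ z, InV I' (f z)) ∨ DoublyPeriodic f) ∧
    JointlyUniversal fun _ : Unit => riemannZeta := by
  refine ⟨fun ι u hu ω₁ ω₂ hω => ⟨fun N p K _ _ w y hy f hf hX hd hb E v hv hv0 => ?_,
    fun N I I' hR f hf hI hb hnc => ?_⟩, Pool.Agent.X316.ZG.zeta_universal⟩
  · have hb' : IteratedOver (dringB (Ell ω₁ ω₂) u) f := hb.elim id fun h =>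
      Pool.Agent.X316.ZE.iterated_alg (db_of_trOne (trOne_ell hω)) hu.mero hf h
    obtain ⟨h1, h2⟩ := Pool.Agent.X316.ZE.main_curve (Pool.Agent.X316.ZE.base_ell hω) hu hy hf hX
      hd hb' E hv hv0
    refine ⟨⟨h1, fun v' _ hv' => ?_⟩, Pool.Agent.Y377.IL.not_gt h2⟩
    have h3 : v' = v := by
      rw [hv] at hv'
      exact_mod_cast hv'.symm
    subst h3
    exact h2
  · exact Pool.Agent.X316.ZE.built_dich hR hf ⟨ω₁, ω₂, hω, ι, u, hu, hb⟩ hI hnc

end Pool.Agent.Results.MP_8d161d_ag.EllipticUniversalCurves
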