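import Pool.Agent.X323.GI.Cur

/-!
# Entire curves in very general complete intersections

Let `X` be a very general complete intersection of hypersurfaces of degrees `d_a`, `a ∈ A`, in the
complex projective space of dimension `n`, with `3 n + 3 ≤ 2 ∑ d_a + |A|`; for `|A| < n` this
implies that `X` is of general type. We determine the smallest closed subset of `X` that contains all
nonconstant entire curves in `X` which are built from elliptic functions and the Riemann zeta
function (or any jointly universal family): it is the closure of the union of the lines in `X`. It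
is a proper subset: this is the Green-Griffiths-Lang conjecture for `X` and these curves.

A family `u` of meromorphic functions on the plane is called jointly universal if the translates of
every finite subfamily approximate all tuples of zero-free entire functions uniformly on some disc.
By Voronin's theorem the Riemann zeta function alone is such a family. For a lattice let `B` be the
ring of the polynomials in the elliptic functions of the lattice, the functions `u j` and all their
derivatives. A curve is built from elliptic functions and `u` if for some lattice it is algebraic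
over `B`, or has homogeneous coordinates in the smallest set of meromorphic functions which contains
the quotients of elements of `B` and is closed under sums, products and meromorphic solutions of
linear systems `y' = A y` with coefficients in the set.
-/

set_option autoImplicit false

namespace Pool.Agent.Results.MP_8d161d_ag.GenericIntersectionCurves

open Filter MvPolynomial FF Pool.Agent.W602.GT
open scoped LinearAlgebra.Projectivization
open Pool.Agent.TH143.EL (HolMap Ell)
open Pool.Agent.Y377.IL (IteratedOver AlgebraicOver)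
open Pool.Agent.X316.ZG (JointlyUniversal)
open Pool.Agent.X316.ZE (dringB)

/-- Very general forms of degrees `d a`: their coefficients are, for all `a` together, algebraically
independent over the rational numbers. -/
def VeryGeneral {A : Type} {n : ℕ} (H : A → MvPolynomial (Fin (n + 1)) ℂ) (d : A → ℕ) : Prop :=
  (∀ a, (H a).IsHomogeneous (d a)) ∧
    AlgebraicIndependent ℚ fun p : (a : A) × {I : Fin (n + 1) →₀ ℕ // I.degree = d a} =>
      (H p.1).coeff p.2.1

/-- A line, given by a vector space `W` of dimension two, that is contained in `X`. -/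
def Line {A : Type} {n : ℕ} (H : A → MvPolynomial (Fin (n + 1)) ℂ)
    (W : Submodule ℂ (Fin (n + 1) → ℂ)) : Prop :=
  Module.finrank ℂ W = 2 ∧ ∀ a, ∀ v ∈ W, eval v (H a) = 0

/-- `K` is (a finite extension of) the function field, and `y` the generic point, of a closed
subvariety of dimension `w` of `X`. -/
def Subvariety {A K : Type} [Field K] [Algebra ℂ K] {n : ℕ}
    (H : A → MvPolynomial (Fin (n + 1)) ℂ) (w : ℕ) (y : Fin (n + 1) → K) : Prop :=
  (y ≠ 0 ∧ ∀ a, aeval y (H a) = 0) ∧ Algebra.trdeg ℂ K = w ∧ Algebra.IsAlgebraic (coords ℂ y) K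

/-- All closed subvarieties of positive dimension of `X` that are not contained in `G = 0` are of
general type. -/
def GeneralTypeOutside {A : Type} {n : ℕ} (H : A → MvPolynomial (Fin (n + 1)) ℂ)
    (G : MvPolynomial (Fin (n + 1)) ℂ) : Prop :=
  ∀ (K : Type) [Field K] [Algebra ℂ K] (w : ℕ) (y : Fin (n + 1) → K), 0 < w →
    Subvariety H w y → aeval y G ≠ 0 → GeneralType ℂ K w

/-- Every nonconstant holomorphic map from a one-dimensional complex torus to `X` has its image in
`G = 0`. -/
def TorusIn {A : Type} {n : ℕ} (H : A → MvPolynomial (Fin (n + 1)) ℂ)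
    (G : MvPolynomial (Fin (n + 1)) ℂ) : Prop :=
  ∀ ω₁ ω₂ : ℂ, LinearIndependent ℝ ![ω₁, ω₂] → ∀ f : ℂ → ℙ ℂ (Fin (n + 1) → ℂ), HolMap f →
    (∀ z, f (z + ω₁) = f z) → (∀ z, f (z + ω₂) = f z) → (∀ z a, eval (f z).rep (H a) = 0) →
    (∃ z w, f z ≠ f w) → ∀ z, eval (f z).rep G = 0

/-- All nonconstant entire curves in `X` which are built from elliptic functions and the functions
`u j` are contained in `G = 0`. -/
def BuiltIn {A ι : Type} {n : ℕ} (u : ι → ℂ → ℂ) (H : A → MvPolynomial (Fin (n + 1)) ℂ)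
    (G : MvPolynomial (Fin (n + 1)) ℂ) : Prop :=
  ∀ ω₁ ω₂ : ℂ, LinearIndependent ℝ ![ω₁, ω₂] → ∀ f : ℂ → ℙ ℂ (Fin (n + 1) → ℂ), HolMap f →
    (IteratedOver (dringB (Ell ω₁ ω₂) u) f ∨ AlgebraicOver (dringB (Ell ω₁ ω₂) u) f) →
    (∀ z a, eval (f z).rep (H a) = 0) → (∃ z w, f z ≠ f w) → ∀ z, eval (f z).rep G = 0

/-- All entire curves in `X` which are built from elliptic functions and a jointly universal family
are constant. -/
def BuiltConstant {A : Type} {n : ℕ} (H : A → MvPolynomial (Fin (n + 1)) ℂ) : Prop :=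
  ∀ (ι : Type) (u : ι → ℂ → ℂ), JointlyUniversal u → ∀ ω₁ ω₂ : ℂ, LinearIndependent ℝ ![ω₁, ω₂] →
    ∀ f : ℂ → ℙ ℂ (Fin (n + 1) → ℂ), HolMap f →
      (IteratedOver (dringB (Ell ω₁ ω₂) u) f ∨ AlgebraicOver (dringB (Ell ω₁ ω₂) u) f) →
      (∀ z a, eval (f z).rep (H a) = 0) → ∀ z w, f z = f w

theorem torus_iff {A : Type} {n : ℕ} {H : A → MvPolynomial (Fin (n + 1)) ℂ}
    (hH : ∀ a, IsForm (H a)) {G : MvPolynomial (Fin (n + 1)) ℂ} (hG : IsForm G) :
    Pool.Agent.TH143.EL.TorusMapsIn (Pool.Agent.X323.GI.eqs H) (Ideal.span {G}) ↔ TorusIn H G :=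
  ⟨fun h ω₁ ω₂ hω f hf h1 h2 h3 h4 z => (Pool.Agent.X323.GI.inV_one hG).1
    (h ω₁ ω₂ hω f hf h1 h2 (fun z => (Pool.Agent.X323.GI.inV_eqs hH).2 (h3 z)) h4 z),
  fun h ω₁ ω₂ hω f hf h1 h2 h3 h4 z => (Pool.Agent.X323.GI.inV_one hG).2
    (h ω₁ ω₂ hω f hf h1 h2 (fun z => (Pool.Agent.X323.GI.inV_eqs hH).1 (h3 z)) h4 z)⟩

theorem const_iff {A : Type} {n : ℕ} {H : A → MvPolynomial (Fin (n + 1)) ℂ} :
    (∀ (ι : Type) (u : ι → ℂ → ℂ), JointlyUniversal u → BuiltIn u H 1) ↔ BuiltConstant H := by
  constructor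
  · intro h ι u hu ω₁ ω₂ hω f hf hb hX z w
    by_contra hne
    have h1 := h ι u hu ω₁ ω₂ hω f hf hb hX ⟨z, w, hne⟩ z
    rw [map_one] at h1
    exact one_ne_zero h1
  · rintro h ι u hu ω₁ ω₂ hω f hf hb hX ⟨z, w, hne⟩
    exact absurd (h ι u hu ω₁ ω₂ hω f hf hb hX z w) hne

/-- **Entire curves in very general complete intersections.** -/
theorem result {n : ℕ} (hn : 1 ≤ n) {A : Type} [Fintype A] [DecidableEq A] {d : A → ℕ}
    (hd0 : ∀ a, 0 < d a) (hd : 3 * n + 3 ≤ 2 * ∑ a, d a + Fintype.card A)
    (H : A → MvPolynomial (Fin (n + 1)) ℂ) (hH : VeryGeneral H d) :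
    -- (1) the exceptional sets of lines, subvarieties, tori and built curves coincide
    (∀ (G : MvPolynomial (Fin (n + 1)) ℂ) (e : ℕ), G.IsHomogeneous e →
      [∀ W, Line H W → ∀ v ∈ W, eval v G = 0, GeneralTypeOutside H G, TorusIn H G,
        BuiltIn (fun _ : Unit => riemannZeta) H G,
        ∀ (ι : Type) (u : ι → ℂ → ℂ), JointlyUniversal u → BuiltIn u H G].TFAE) ∧
    -- (2) the subvarieties of large dimension are of general type, and not in the exceptional set
    (∀ (K : Type) [Field K] [Algebra ℂ K] (w : ℕ) (y : Fin (n + 1) → K), 0 < w →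
      2 * n + 2 ≤ ∑ a, d a + Fintype.card A + w → Subvariety H w y →
      GeneralType ℂ K w ∧ ∃ (G : MvPolynomial (Fin (n + 1)) ℂ) (e : ℕ), G.IsHomogeneous e ∧
        aeval y G ≠ 0 ∧ ∀ (ι : Type) (u : ι → ℂ → ℂ), JointlyUniversal u → BuiltIn u H G) ∧
    -- (3) the range in which all built curves are constant
    (BuiltConstant H ↔ 2 * n ≤ ∑ a, d a + Fintype.card A + 1) ∧
    -- (4) the zeta function
    JointlyUniversal fun _ : Unit => riemannZeta := by
  obtain ⟨hf, hind⟩ := hH
  have hform := Pool.Agent.X323.GI.forms_of hf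
  have key : ∀ (G : MvPolynomial (Fin (n + 1)) ℂ) (e : ℕ), G.IsHomogeneous e →
      [∀ W, Line H W → ∀ v ∈ W, eval v G = 0, GeneralTypeOutside H G, TorusIn H G,
        BuiltIn (fun _ : Unit => riemannZeta) H G,
        ∀ (ι : Type) (u : ι → ℂ → ℂ), JointlyUniversal u → BuiltIn u H G].TFAE := by
    intro G e hG
    have h := Pool.Agent.X323.GI.cur_tfae (k0 := ℚ) hn hd0 hf hind hd hG
    rw [torus_iff hform ⟨e, hG⟩] at h
    exact h
  refine ⟨key, ?_, ?_, Pool.Agent.X316.ZG.zeta_universal⟩
  · intro K _ _ w y hw hdw hy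
    obtain ⟨G, e, hG, hyG, hL⟩ := Pool.Agent.X323.GI.strong (k0 := ℚ) hn hd0 hf hind hd hdw hy
    have h01 : (∀ W, Line H W → ∀ v ∈ W, eval v G = 0) ↔ GeneralTypeOutside H G :=
      (key G e hG).out 0 1
    exact ⟨h01.1 hL K w y hw hy hyG, G, e, hG, hyG, ((key G e hG).out 0 4).1 hL⟩
  · have h1 : (∀ W, Line H W → ∀ v ∈ W, eval v (1 : MvPolynomial (Fin (n + 1)) ℂ) = 0) ↔
        ∀ (ι : Type) (u : ι → ℂ → ℂ), JointlyUniversal u → BuiltIn u H 1 :=
      (key 1 0 (isHomogeneous_one _ _)).out 0 4
    have h2 := Pool.Agent.Y741.m_tfae (k0 := ℚ) hn hd0 hf hind (Or.inr (Or.inr hd))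
    have h56 : (∀ W, ¬ Pool.Agent.Y741.LineX H W) ↔ 2 * n - 1 ≤ ∑ a, (d a + 1) := h2.out 4 5
    have hsum : ∑ a, (d a + 1) = ∑ a, d a + Fintype.card A := by
      rw [Finset.sum_add_distrib, Finset.sum_const, Finset.card_univ, smul_eq_mul, mul_one]
    have h6 : (2 * n ≤ ∑ a, d a + Fintype.card A + 1) ↔ 2 * n - 1 ≤ ∑ a, (d a + 1) := by
      rw [hsum]
      omega
    rw [h6, ← h56, ← const_iff, ← h1]
    refine forall_congr' fun W => ⟨fun h hW => ?_, fun h hW => absurd hW h⟩
    have h3 := h hW 0 W.zero_mem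
    rw [map_one] at h3
    exact one_ne_zero h3

end Pool.Agent.Results.MP_8d161d_ag.GenericIntersectionCurves
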