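import Mathlib
import Pool.Agent.X333.DN.ImT

/-!
MP_8d161d_ag, Q1: the Green–Griffiths–Lang conjecture for the finite images of projective varieties
given by nested sums of high powers, and of their covers.

`V = {F = 0}` in `ℙⁿ` is a projective variety whose equations are nested sums of high powers of
linear forms, or nested sums of high powers of monomials. We consider the closed subvarieties of the
images `X = {Φ = 0}` of `V`, and of the finite covers `W = {Ψ = 0}` of subvarieties of `V`, under
finite morphisms with fibres of at most `r` points. No assumption is made on the singularities and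
the branch loci. Entire curves in `X` need not lift to `W`; they lift to algebroid curves.

`im`, `Mor`, `Onto`, `FibresLe`, `Entire` (`Pool/Agent/Y221/FQ/Defs.lean`), `CovGm`
(`Pool/Agent/X333/DN/Img.lean`), `SubVar`, `SpGm`, `VarPts`, `IsComponent`, `GeneralType`
(`Pool/Agent/W602/GT`), `IsUniruled` (`Pool/Agent/W619/PQ/Defs.lean`), `StronglyGeneral`
(`Pool/Agent/TH466/QG/Strong.lean`), `PseudoBrody` (`Pool/Agent/Y221/BD/Defs.lean`), `HighTowers`
(`Pool/Agent/TH710/ND/Proj.lean`).
-/

set_option autoImplicit false

namespace Pool.Agent.Results.MP_8d161d_ag.NestedFiniteImages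

open Pool.Agent.W602.GT Pool.Agent.Y221.FQ Pool.Agent.TH710.ND Pool.Agent.X333.DN
open Pool.Agent.Y221.BD (PseudoBrody)
open Pool.Agent.W619.PQ (IsUniruled)
open Pool.Agent.TH466.QG (StronglyGeneral)

/-- Let `V = {F = 0}`, where the forms `F_e` are nested sums with at most `h + 1` levels, at most
`s` summands at each, and exponents at least `4 (n + 1) (h + 1) 100 ^ s (r + 1) ^ 7`.

(1) Let `W = {Ψ = 0}` be a projective variety with a morphism `B : W → V` and a surjective morphism
`G : W → X = {Φ = 0}` with fibres of at most `r` points. Let `T` be the image under `G` of the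
inverse image under `B` of the closure of the union of the images of the nonconstant morphisms from
the multiplicative group to `V`. All nonconstant entire curves in `X` lie in `T`, and all closed
subvarieties of positive dimension of `X` which do not lie in `T` are of general type, even strongly
of general type, and pseudo-Brody hyperbolic.

(2) Let `G : V → X = {Φ = 0}` be a surjective morphism with fibres of at most `r` points. An
irreducible component `Z` of positive dimension of `X` is of general type if and only if it is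
pseudo-Brody hyperbolic, if and only if it is strongly of general type, if and only if it is not
uniruled, if and only if it is not contained in `T` (with `W = V`). -/
theorem result {n M : ℕ} {ι μ : Type} [Finite ι] {F : ι → MvPolynomial (Fin (n + 1)) ℂ}
    {Φ : μ → MvPolynomial (Fin (M + 1)) ℂ} {s N h r : ℕ} (hF : HighTowers s N h F)
    (hN : (n + 1) * ((h + 1) * (4 * 10 ^ (2 * s) * (r + 1) ^ 7)) ≤ N)
    (hΦ : ∀ e, IsForm (Φ e)) :
    (∀ (m : ℕ) (κ : Type) (Ψ : κ → MvPolynomial (Fin (m + 1)) ℂ)
      (B : Fin (n + 1) → MvPolynomial (Fin (m + 1)) ℂ)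
      (G : Fin (M + 1) → MvPolynomial (Fin (m + 1)) ℂ), (∀ e, IsForm (Ψ e)) → Mor Ψ F B →
      Mor Ψ Φ G → Onto Ψ Φ G → FibresLe Ψ G r →
      (∀ f, Entire Φ f → ∀ t, f t ∈ CovGm Ψ F B G) ∧
      ∀ (L : Type) [Field L] [Algebra ℂ L] (w : ℕ) (z : Fin (M + 1) → L), 1 ≤ w →
        SubVar Φ L w z → ¬ VarPts ℂ z ⊆ CovGm Ψ F B G →
          GeneralType ℂ L w ∧ StronglyGeneral ℂ z ∧ PseudoBrody z) ∧
    (∀ G : Fin (M + 1) → MvPolynomial (Fin (n + 1)) ℂ, Mor F Φ G → Onto F Φ G → FibresLe F G r →
      ∀ (L : Type) [Field L] [Algebra ℂ L] (w : ℕ) (z : Fin (M + 1) → L), 1 ≤ w →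
        SubVar Φ L w z → IsComponent Φ z →
          [GeneralType ℂ L w, PseudoBrody z, StronglyGeneral ℂ z, ¬ IsUniruled ℂ L w,
            ¬ VarPts ℂ z ⊆ im G '' SpGm F].TFAE) := by
  refine ⟨fun m κ Ψ B G hΨ hB hG hon hfib => gen_cover' hΦ hΨ hB hG hon hfib hF hN, ?_⟩
  intro G hG hon hfib L _ _ w z hw hz hc
  have h := (gen_tfae' hΦ hG hon hfib hF hN hw hz).2 hc
  tfae_have 1 ↔ 2 := h.out 0 2
  tfae_have 3 ↔ 2 := h.out 1 2
  tfae_have 4 ↔ 2 := h.out 3 2
  tfae_have 5 ↔ 2 := h.out 7 2
  tfae_finish

end Pool.Agent.Results.MP_8d161d_ag.NestedFiniteImages
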